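import Pool.Agent.H238.PH.Spec

/-! # Winding numbers (task H of project PH) -/

set_option autoImplicit false

open MeasureTheory Filter Topology ComplexConjugate

namespace Pool.Agent.H286.PH

open Pool.Agent.H238.PH

theorem im_div (w z : ℂ) : (w / z).im = (w * conj z).im / ‖z‖ ^ 2 := by
  rw [div_eq_mul_inv, Complex.inv_def, ← mul_assoc, Complex.im_mul_ofReal, Complex.normSq_eq_norm_sq,
    div_eq_mul_inv]

theorem t_H : S_H := by
  intro Z Z' Y Y' hZ hZc hY hYc hZp hYp hpos
  have hZ0 : ∀ t, Z t ≠ 0 := by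
    intro t h
    have := hpos t
    rw [h, zero_mul] at this
    simp at this
  have hY0 : ∀ t, Y t ≠ 0 := by
    intro t h
    have := hpos t
    rw [h, map_zero, mul_zero] at this
    simp at this
  have cZ : Continuous Z := continuous_iff_continuousAt.2 fun t => (hZ t).continuousAt
  have cY : Continuous Y := continuous_iff_continuousAt.2 fun t => (hY t).continuousAt
  have cf : Continuous fun t => Z' t / Z t := hZc.div cZ hZ0
  have cg : Continuous fun t => Y' t / Y t := hYc.div cY hY0
  have hI : ∀ (W W' : ℝ → ℂ), (Continuous fun t => W' t / W t) →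
      ∫ t in (0 : ℝ)..(2 * Real.pi), (W' t * conj (W t)).im / ‖W t‖ ^ 2 =
        (∫ t in (0 : ℝ)..(2 * Real.pi), W' t / W t).im := by
    intro W W' hc
    have h := Complex.imCLM.intervalIntegral_comp_comm (μ := volume)
      (hc.intervalIntegrable 0 (2 * Real.pi))
    simp only [Complex.imCLM_apply] at h
    rw [← h]
    refine intervalIntegral.integral_congr fun t _ => ?_
    rw [im_div]
  -- the first curve
  have h1 : ∀ t, HasDerivAt (fun s => ∫ x in (0 : ℝ)..s, Z' x / Z x) (Z' t / Z t) t := fun t =>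
    intervalIntegral.integral_hasDerivAt_right (cf.intervalIntegrable 0 t)
      (cf.stronglyMeasurableAtFilter _ _) cf.continuousAt
  have h2 : ∀ t, HasDerivAt (fun s => Z s * Complex.exp (-∫ x in (0 : ℝ)..s, Z' x / Z x)) 0 t := by
    intro t
    have h := (hZ t).mul ((h1 t).neg.cexp)
    refine h.congr_deriv ?_
    have := hZ0 t
    field_simp
    ring
  have h3 := is_const_of_deriv_eq_zero (fun t => (h2 t).differentiableAt) (fun t => (h2 t).deriv)
    (2 * Real.pi) 0
  simp only [intervalIntegral.integral_same, neg_zero, Complex.exp_zero, mul_one] at h3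
  rw [hZp] at h3
  have h4 : Complex.exp (-∫ x in (0 : ℝ)..(2 * Real.pi), Z' x / Z x) = 1 := by
    have := hZ0 0
    exact mul_left_cancel₀ this (by rw [h3, mul_one])
  rw [Complex.exp_eq_one_iff] at h4
  obtain ⟨k, hk⟩ := h4
  have hk' : (∫ x in (0 : ℝ)..(2 * Real.pi), Z' x / Z x).im = 2 * Real.pi * ((-k : ℤ) : ℝ) := by
    have : (∫ x in (0 : ℝ)..(2 * Real.pi), Z' x / Z x) = -((k : ℂ) * (2 * Real.pi * Complex.I)) := by
      rw [← hk]; ring
    rw [this]
    simp
    ring
  -- the difference
  have h5 : ∀ t, HasDerivAt (fun s => Complex.log (Z s / Y s)) (Z' t / Z t - Y' t / Y t) t := by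
    intro t
    have hs : Z t / Y t ∈ Complex.slitPlane := by
      left
      have e : Z t / Y t = (Z t * conj (Y t)) * ((Complex.normSq (Y t))⁻¹ : ℝ) := by
        rw [div_eq_mul_inv, Complex.inv_def, ← mul_assoc]
      rw [e, Complex.re_mul_ofReal]
      exact mul_pos (hpos t) (inv_pos.2 (Complex.normSq_pos.2 (hY0 t)))
    have hd : HasDerivAt (fun s => Z s / Y s) ((Z' t * Y t - Z t * Y' t) / Y t ^ 2) t :=
      (hZ t).div (hY t) (hY0 t)
    have h := hd.clog_real hs
    refine h.congr_deriv ?_
    have := hZ0 t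
    have := hY0 t
    field_simp
  have h6 : ∫ t in (0 : ℝ)..(2 * Real.pi), (Z' t / Z t - Y' t / Y t) = 0 := by
    rw [intervalIntegral.integral_eq_sub_of_hasDerivAt (fun t _ => h5 t)
      ((cf.sub cg).intervalIntegrable _ _), hZp, hYp, sub_self]
  rw [intervalIntegral.integral_sub (cf.intervalIntegrable _ _) (cg.intervalIntegrable _ _),
    sub_eq_zero] at h6
  refine ⟨-k, ?_, ?_⟩
  · rw [hI Z Z' cf, hk']
  · rw [hI Y Y' cg, ← h6, hk']

end Pool.Agent.H286.PH
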